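import Pool.Agent.H292Z.MGrp.Defs
import Pool.Agent.H292Z.MGrp.Main

set_option autoImplicit false

namespace Pool.Agent.Results.MP_451483_gt.AMGroupPathwise

open Pool.Agent.H292Z.MGrp

/-- Every abelian M-group admits a Hausdorff group topology that is pathwise connected and
locally pathwise connected. -/
theorem result (G : Type) [AddCommGroup G] (hG : IsMGroup G) :
    ∃ τ : TopologicalSpace G, @IsTopologicalAddGroup G τ _ ∧ @T2Space G τ ∧
      @PathConnectedSpace G τ ∧ @LocallyPathwiseConnected G τ := by
  refine PC.top (PC.main fun m => ?_)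
  let f : G →+ G := nsmulAddMonoidHom m
  by_cases h : f.ker = ⊤
  · exact Or.inl fun x => (h ▸ AddSubgroup.mem_top x : x ∈ f.ker)
  · refine Or.inr ((hG _ h fun τ _ _ => ?_).trans
      (Cardinal.mk_congr (QuotientAddGroup.quotientKerEquivRange f).toEquiv).le)
    exact isClosed_eq (continuous_nsmul m) continuous_const

end Pool.Agent.Results.MP_451483_gt.AMGroupPathwise
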